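import Pool.Agent.H500R3.Boot.Final

/-!
3-neighbour bootstrap percolation on the grid `[n]^2`: the maximum percolation time is
`(2/3 + o(1)) n^2`.
-/

namespace Pool.Agent.Results.MP_1a3405_co.GridThreeNeighbour

open Filter Topology

/-- The grid `[n]^2`. -/
noncomputable def grid (n : ℕ) : Finset (ℤ × ℤ) :=
  Finset.Icc 1 (n : ℤ) ×ˢ Finset.Icc 1 (n : ℤ)

/-- The points of `ℤ²` which differ from `v` by `1` in exactly one coordinate. -/
def nbr (v : ℤ × ℤ) : Finset (ℤ × ℤ) :=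
  {(v.1 + 1, v.2), (v.1 - 1, v.2), (v.1, v.2 + 1), (v.1, v.2 - 1)}

/-- One step of `3`-neighbour bootstrap percolation on `[n]^2`: a vertex of the grid becomes
infected when at least three of its neighbours are infected. -/
noncomputable def step (n : ℕ) (A : Finset (ℤ × ℤ)) : Finset (ℤ × ℤ) :=
  A ∪ (grid n).filter (fun v => 3 ≤ (nbr v ∩ A).card)

/-- `t` is the percolation time of the percolating set `A`. -/
def IsTime (n : ℕ) (A : Finset (ℤ × ℤ)) (t : ℕ) : Prop :=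
  (step n)^[t] A = grid n ∧ ∀ s < t, (step n)^[s] A ≠ grid n

/-- The maximum percolation time `M([n]^2, 3)`. -/
noncomputable def M (n : ℕ) : ℕ := sSup {t | ∃ A, A ⊆ grid n ∧ IsTime n A t}

lemma M_eq (n : ℕ) : M n = H500B.M n := rfl

/-- **Theorem.** `(2/3) n^2 - 12 n ≤ M([n]^2, 3) ≤ (2 n^2 + 1)/3` for all `n`, the supremum in the
definition of `M` is attained, and `M([n]^2, 3) / n^2` tends to `2/3`. -/
theorem result : (∀ n : ℕ, 2 / 3 * (n : ℝ) ^ 2 - 12 * n ≤ (M n : ℝ) ∧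
      (M n : ℝ) ≤ (2 * (n : ℝ) ^ 2 + 1) / 3) ∧
    (∀ n : ℕ, IsGreatest {t | ∃ A, A ⊆ grid n ∧ IsTime n A t} (M n)) ∧
    Tendsto (fun n : ℕ => (M n : ℝ) / (n : ℝ) ^ 2) atTop (𝓝 (2 / 3)) := by
  refine ⟨fun n => ?_, fun n => ?_, ?_⟩
  · rw [M_eq]
    obtain ⟨h1, h2⟩ := H500B.bounds n
    have h1' : 3 * (H500B.M n : ℝ) ≤ 2 * ((n : ℝ) * n) + 1 := by exact_mod_cast h1
    have h2' : 2 * ((n : ℝ) * n) ≤ 3 * (H500B.M n : ℝ) + 36 * n := by exact_mod_cast h2
    constructor <;> nlinarith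
  · exact ⟨H500B.sSup_mem n, fun t ht => le_csSup (H500B.times_bdd n) ht⟩
  · exact H500B.limit

end Pool.Agent.Results.MP_1a3405_co.GridThreeNeighbour
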