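import Pool.Agent.H500R3.Boot.Cube

/-!
`r`-neighbour bootstrap percolation on the grid `[n]^d`: the maximum percolation time has order
`n^d` when `d ≥ 3` and `r = 2d - 3`; the first case is `d = r = 3`.
-/

namespace Pool.Agent.Results.MP_1a3405_co.OrderThirdThreshold

variable {d : ℕ}

/-- The grid `[n]^d`. -/
noncomputable def grid (d n : ℕ) : Finset (Fin d → ℤ) :=
  Fintype.piFinset (fun _ => Finset.Icc 1 (n : ℤ))

/-- The `2d` points of `ℤ^d` which differ from `v` by `1` in exactly one coordinate. -/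
def nbr (v : Fin d → ℤ) : Finset (Fin d → ℤ) :=
  Finset.univ.image (fun p : Fin d × Bool =>
    Function.update v p.1 (v p.1 + (if p.2 then 1 else -1)))

/-- One step of `r`-neighbour bootstrap percolation on `[n]^d`: a vertex of the grid becomes
infected when at least `r` of its neighbours are infected. -/
noncomputable def step (r n : ℕ) (A : Finset (Fin d → ℤ)) : Finset (Fin d → ℤ) :=
  A ∪ (grid d n).filter (fun v => r ≤ (nbr v ∩ A).card)

/-- `t` is the percolation time of the percolating set `A`. -/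
def IsTime (r n : ℕ) (A : Finset (Fin d → ℤ)) (t : ℕ) : Prop :=
  (step r n)^[t] A = grid d n ∧ ∀ s < t, (step r n)^[s] A ≠ grid d n

/-- The maximum percolation time. -/
noncomputable def M (d r n : ℕ) : ℕ :=
  sSup {t | ∃ A : Finset (Fin d → ℤ), A ⊆ grid d n ∧ IsTime r n A t}

lemma M_eq (d r n : ℕ) : M d r n = H500G.M d r n := rfl

/-- **Theorem.** (1) `M(3, 3, n) ≥ ⌊(n-1)/2⌋ (⌊(n-2)/2⌋ (n+1) + 1)` for `n ≥ 4`.
(2) For `d ≥ 4`, `r = 2d - 3` and `n ≥ 5` the maximum percolation time is at least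
`⌊(n-1)/2⌋ (⌊(n-2)/2⌋ (2 (2 ⌊(n-1)/4⌋)^(d-2) + 2) + 1)`. (3) In both cases it is attained and
`r M(d, r, n) ≤ d n^d`. -/
theorem result :
    (∀ n : ℕ, 4 ≤ n → ((n - 1) / 2) * (((n - 2) / 2) * (n + 1) + 1) ≤ M 3 3 n) ∧
    (∀ d n : ℕ, 4 ≤ d → 5 ≤ n →
      ((n - 1) / 2) * (((n - 2) / 2) * (2 * (2 * ((n - 1) / 4)) ^ (d - 2) + 2) + 1) ≤
        M d (2 * d - 3) n) ∧
    (∀ d n : ℕ, 3 ≤ d →
      IsGreatest {t | ∃ A : Finset (Fin d → ℤ), A ⊆ grid d n ∧ IsTime (2 * d - 3) n A t}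
        (M d (2 * d - 3) n) ∧
      (2 * d - 3) * M d (2 * d - 3) n ≤ d * n ^ d) := by
  refine ⟨fun n hn => H500G.bounds33 n hn, fun d n hd hn => H500G.bounds3 hd n hn,
    fun d n hd => ⟨⟨?_, fun t ht => ?_⟩, H500G.upper_all (by omega) d n⟩⟩
  · exact Nat.sSup_mem (H500G.times_ne _ _ _) (H500G.times_bdd' (by omega) d n)
  · exact le_csSup (H500G.times_bdd' (by omega) d n) ht

end Pool.Agent.Results.MP_1a3405_co.OrderThirdThreshold
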