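import Pool.Agent.H500R3.Boot.GenLow

/-!
`(2d-1)`-neighbour bootstrap percolation on the grid `[n]^d`: the maximum percolation time has
order `n^d`, for every `d`.
-/

namespace Pool.Agent.Results.MP_1a3405_co.OrderTopThreshold

variable {d : ℕ}

/-- The grid `[n]^d`. -/
noncomputable def grid (d n : ℕ) : Finset (Fin d → ℤ) :=
  Fintype.piFinset (fun _ => Finset.Icc 1 (n : ℤ))

/-- The `2d` points of `ℤ^d` which differ from `v` by `1` in exactly one coordinate. -/
def nbr (v : Fin d → ℤ) : Finset (Fin d → ℤ) :=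
  Finset.univ.image (fun p : Fin d × Bool =>
    Function.update v p.1 (v p.1 + (if p.2 then 1 else -1)))

/-- One step of `r`-neighbour bootstrap percolation on `[n]^d`: a vertex of the grid becomes
infected when at least `r` of its neighbours are infected. -/
noncomputable def step (r n : ℕ) (A : Finset (Fin d → ℤ)) : Finset (Fin d → ℤ) :=
  A ∪ (grid d n).filter (fun v => r ≤ (nbr v ∩ A).card)

/-- `t` is the percolation time of the percolating set `A`. -/
def IsTime (r n : ℕ) (A : Finset (Fin d → ℤ)) (t : ℕ) : Prop :=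
  (step r n)^[t] A = grid d n ∧ ∀ s < t, (step r n)^[s] A ≠ grid d n

/-- The maximum percolation time. -/
noncomputable def M (d r n : ℕ) : ℕ :=
  sSup {t | ∃ A : Finset (Fin d → ℤ), A ⊆ grid d n ∧ IsTime r n A t}

lemma M_eq (d r n : ℕ) : M d r n = H500G.M d r n := rfl

/-- **Theorem.** For `d ≥ 1`, `r = 2d - 1` and `n ≥ 3` the maximum percolation time is attained,
is at least `2 ⌊(n-1)/2⌋^d` and at most `(d n^d + d - 1) / (2d - 1)`. -/
theorem result : ∀ d : ℕ, 1 ≤ d → ∀ n : ℕ, 3 ≤ n →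
    IsGreatest {t | ∃ A : Finset (Fin d → ℤ), A ⊆ grid d n ∧ IsTime (2 * d - 1) n A t}
      (M d (2 * d - 1) n) ∧
    2 * ((n - 1) / 2) ^ d ≤ M d (2 * d - 1) n ∧
    (M d (2 * d - 1) n : ℝ) ≤ (d * (n : ℝ) ^ d + (d - 1)) / (2 * d - 1) := by
  intro d hd n hn
  rw [M_eq]
  obtain ⟨h1, h2⟩ := H500G.bounds hd n hn
  refine ⟨⟨Nat.sSup_mem (H500G.times_ne _ _ _) (H500G.times_bdd hd n),
    fun t ht => le_csSup (H500G.times_bdd hd n) ht⟩, h1, ?_⟩
  have hd' : (1 : ℝ) ≤ d := by exact_mod_cast hd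
  rw [le_div_iff₀ (by linarith)]
  obtain ⟨e, rfl⟩ : ∃ e, d = e + 1 := ⟨d - 1, by omega⟩
  have e1 : 2 * (e + 1) - 1 = 2 * e + 1 := by omega
  rw [e1] at h2 ⊢
  rw [Nat.add_sub_cancel] at h2
  have h3 : ((2 * e + 1 : ℕ) : ℝ) * H500G.M (e + 1) (2 * e + 1) n ≤
      ((e + 1 : ℕ) : ℝ) * (n : ℝ) ^ (e + 1) + e := by exact_mod_cast h2
  push_cast at h3 ⊢
  linarith

end Pool.Agent.Results.MP_1a3405_co.OrderTopThreshold
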